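import Mathlib

/-!
# A binary quasi group code of length 12 whose permutation automorphism group has order two

The binary linear code `C` of length `12` and dimension `6` spanned by the rows of `G` has exactly two
permutation automorphisms, the identity and the fixed-point-free involution
`σ = (0 1)(2 3)(4 5)(6 7)(8 9)(10 11)`.  So the statement of the question is false.

Proof.  An automorphism `β` of `C` permutes the codewords and preserves their weights, hence it
preserves the numbers `F i j`, the sum of `2 ^ wt c` over all codewords `c` with `c i = c j = 1`.  The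
values `F i i` separate the orbits of `σ`, and `F 0 j ≠ F 0 (σ j)` for all `j ≥ 2`.
-/

set_option autoImplicit false

namespace Pool.Agent.Results.MP_e1d516_co.OrderTwo

/-- The word `c ^ β`, with coordinates `c (β⁻¹ i)`. -/
def act {n : ℕ} (β : Equiv.Perm (Fin n)) (c : Fin n → ZMod 2) : Fin n → ZMod 2 :=
  fun i => c (β⁻¹ i)

/-- The set of all permutation automorphisms of the code `C`. -/
def PAut {n : ℕ} (C : Submodule (ZMod 2) (Fin n → ZMod 2)) : Set (Equiv.Perm (Fin n)) :=
  {β | act β '' (C : Set (Fin n → ZMod 2)) = C}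

/-- The images of the coordinates under `σ`. -/
def sg : Fin 12 → Fin 12 := ![1, 0, 3, 2, 5, 4, 7, 6, 9, 8, 11, 10]

/-- The involution `(0 1)(2 3)(4 5)(6 7)(8 9)(10 11)`. -/
def sigma : Equiv.Perm (Fin 12) where
  toFun := sg
  invFun := sg
  left_inv := by unfold Function.LeftInverse; decide
  right_inv := by unfold Function.RightInverse Function.LeftInverse; decide

/-- The generator matrix. -/
def G : Fin 6 → Fin 12 → ZMod 2 := ![
  ![0, 1, 0, 1, 1, 0, 0, 0, 0, 0, 0, 0],
  ![1, 0, 1, 0, 0, 1, 0, 0, 0, 0, 0, 0],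
  ![1, 0, 0, 1, 0, 0, 1, 0, 1, 0, 0, 0],
  ![0, 1, 1, 0, 0, 0, 0, 1, 0, 1, 0, 0],
  ![0, 0, 0, 1, 0, 0, 1, 0, 0, 1, 1, 0],
  ![0, 0, 1, 0, 0, 0, 0, 1, 1, 0, 0, 1]]

/-- The permutation of the rows of `G` induced by `σ`. -/
def sr : Fin 6 → Fin 6 := ![1, 0, 3, 2, 5, 4]

/-- The codeword with message `u`. -/
def enc (u : Fin 6 → ZMod 2) : Fin 12 → ZMod 2 := fun i => ∑ r, u r * G r i

/-- The code. -/
def C : Submodule (ZMod 2) (Fin 12 → ZMod 2) := Submodule.span (ZMod 2) (Set.range G)

theorem mem_C (c : Fin 12 → ZMod 2) : c ∈ C ↔ ∃ u, enc u = c := by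
  rw [C, Submodule.mem_span_range_iff_exists_fun]
  constructor
  · rintro ⟨u, hu⟩
    exact ⟨u, by rw [← hu]; funext i; simp [enc, Finset.sum_apply]⟩
  · rintro ⟨u, hu⟩
    exact ⟨u, by rw [← hu]; funext i; simp [enc, Finset.sum_apply]⟩

/-- The weight of a word. -/
def wt (c : Fin 12 → ZMod 2) : ℕ := ∑ i, (c i).val

/-- The sum of `2 ^ wt c` over all codewords `c` with `c i = c j = 1`. -/
def F (i j : Fin 12) : ℕ :=
  ∑ u : Fin 6 → ZMod 2, (enc u i).val * (enc u j).val * 2 ^ wt (enc u)

theorem enc_inj : Function.Injective enc := by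
  intro u v h
  have h' : ∀ i, enc u i = enc v i := fun i => congrFun h i
  have e4 := h' 4
  have e5 := h' 5
  have e6 := h' 6
  have e7 := h' 7
  have e10 := h' 10
  have e11 := h' 11
  simp [enc, Fin.sum_univ_six, G] at e4 e5 e6 e7 e10 e11
  funext r
  fin_cases r
  · exact e4
  · exact e5
  · simpa [e10] using e6
  · simpa [e11] using e7
  · exact e10
  · exact e11

theorem wt_act (β : Equiv.Perm (Fin 12)) (c : Fin 12 → ZMod 2) : wt (act β c) = wt c := by
  unfold wt act
  exact Equiv.sum_comp β⁻¹ (fun i => (c i).val)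

theorem F_inv {β : Equiv.Perm (Fin 12)} (hβ : β ∈ PAut C) (i j : Fin 12) :
    F (β i) (β j) = F i j := by
  have h : ∀ u, ∃ v, enc v = act β (enc u) := by
    intro u
    rw [← mem_C, ← SetLike.mem_coe, ← show act β '' (C : Set (Fin 12 → ZMod 2)) = C from hβ]
    exact ⟨enc u, (mem_C _).2 ⟨u, rfl⟩, rfl⟩
  choose τ hτ using h
  have hinj : Function.Injective τ := by
    intro u v huv
    apply enc_inj
    have h1 : act β (enc u) = act β (enc v) := by rw [← hτ u, ← hτ v, huv]
    funext i
    have := congrFun h1 (β i)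
    simpa [act] using this
  have hbij : Function.Bijective τ := Finite.injective_iff_bijective.1 hinj
  unfold F
  rw [← hbij.sum_comp]
  apply Finset.sum_congr rfl
  intro u _
  rw [hτ u, wt_act]
  simp [act]

/-- The values of `F i i`. -/
def dg : Fin 12 → ℕ := ![5400, 5400, 4680, 4680, 5064, 5064, 5184, 5184, 5472, 5472, 5616, 5616]

/-- The values of `F 0 j`. -/
def e0 : Fin 12 → ℕ := ![5400, 3600, 2952, 3120, 3360, 3720, 3600, 3456, 3744, 3600, 3840, 3888]

set_option maxRecDepth 100000 in
theorem F_diag : ∀ i, F i i = dg i := by decide +kernel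

set_option maxRecDepth 100000 in
theorem F_zero : ∀ j, F 0 j = e0 j := by decide +kernel

set_option maxRecDepth 100000 in
theorem F_one : ∀ j, F 1 j = e0 (sg j) := by decide +kernel

theorem orbit_of_diag : ∀ i j, dg j = dg i → j = i ∨ j = sg i := by decide +kernel

theorem e0_ne : ∀ j, j ≠ 0 → j ≠ 1 → e0 (sg j) ≠ e0 j := by decide +kernel

theorem sg_sg : ∀ j, sg (sg j) = j := by decide

theorem G_sg : ∀ r i, G r (sg i) = G (sr r) i := by decide

theorem sr_sr : ∀ r, sr (sr r) = r := by decide

theorem act_sigma (u : Fin 6 → ZMod 2) : act sigma (enc u) = enc (fun r => u (sr r)) := by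
  funext i
  have h : (sigma⁻¹ : Equiv.Perm (Fin 12)) i = sg i := rfl
  simp only [act, enc, h, G_sg]
  let e : Fin 6 ≃ Fin 6 := ⟨sr, sr, sr_sr, sr_sr⟩
  have h2 := Equiv.sum_comp e (fun r => u (sr r) * G r i)
  rw [← h2]
  apply Finset.sum_congr rfl
  intro r _
  show u r * G (sr r) i = u (sr (sr r)) * G (sr r) i
  rw [sr_sr]

theorem one_mem : (1 : Equiv.Perm (Fin 12)) ∈ PAut C := by
  show act 1 '' (C : Set (Fin 12 → ZMod 2)) = C
  have : act (1 : Equiv.Perm (Fin 12)) = id := by
    funext c i
    simp [act]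
  rw [this, Set.image_id]

theorem sigma_mem : sigma ∈ PAut C := by
  show act sigma '' (C : Set (Fin 12 → ZMod 2)) = C
  ext c
  constructor
  · rintro ⟨c', hc', rfl⟩
    obtain ⟨u, rfl⟩ := (mem_C c').1 hc'
    rw [act_sigma]
    exact (mem_C _).2 ⟨_, rfl⟩
  · intro hc
    obtain ⟨u, rfl⟩ := (mem_C c).1 hc
    refine ⟨enc (fun r => u (sr r)), (mem_C _).2 ⟨_, rfl⟩, ?_⟩
    rw [act_sigma]
    simp only [sr_sr]

theorem PAut_C : PAut C = {1, sigma} := by
  ext β
  constructor
  · intro hβ
    have horb : ∀ i, β i = i ∨ β i = sg i := by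
      intro i
      apply orbit_of_diag
      rw [← F_diag, ← F_diag]
      exact F_inv hβ i i
    rcases horb 0 with h0 | h0
    · left
      have key : ∀ j, j ≠ 0 → j ≠ 1 → β j = j := by
        intro j hj0 hj1
        rcases horb j with h | h
        · exact h
        · exfalso
          have := F_inv hβ 0 j
          rw [h0, h, F_zero, F_zero] at this
          exact e0_ne j hj0 hj1 this
      ext1 j
      show β j = j
      by_cases hj0 : j = 0
      · rw [hj0, h0]
      by_cases hj1 : j = 1
      · subst hj1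
        rcases horb 1 with h | h
        · exact h
        · exfalso
          have h' : β 1 = 0 := h
          exact hj0 (β.injective (h'.trans h0.symm))
      exact key j hj0 hj1
    · right
      have h0' : β 0 = 1 := h0
      show β = sigma
      have key : ∀ j, j ≠ 0 → j ≠ 1 → β j = sg j := by
        intro j hj0 hj1
        rcases horb j with h | h
        · exfalso
          have := F_inv hβ 0 j
          rw [h0', h, F_one, F_zero] at this
          exact e0_ne j hj0 hj1 this
        · exact h
      ext1 j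
      show β j = sg j
      by_cases hj0 : j = 0
      · rw [hj0, h0]
      by_cases hj1 : j = 1
      · subst hj1
        rcases horb 1 with h | h
        · exfalso
          exact hj0 (β.injective (h.trans h0'.symm))
        · exact h
      exact key j hj0 hj1
  · rintro (rfl | hβ)
    · exact one_mem
    · rw [Set.mem_singleton_iff.1 hβ]
      exact sigma_mem

/-- There is a binary linear code of length `12` (and dimension `6`) whose permutation automorphism
group consists of the identity and one fixed-point-free involution. -/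
theorem result : ∃ (C : Submodule (ZMod 2) (Fin 12 → ZMod 2)) (σ : Equiv.Perm (Fin 12)),
    (∀ i, σ i ≠ i) ∧ σ * σ = 1 ∧ PAut C = {1, σ} ∧ Nat.card C = 2 ^ 6 := by
  refine ⟨C, sigma, by decide, ?_, PAut_C, ?_⟩
  · ext1 j
    exact sg_sg j
  · have e : (Fin 6 → ZMod 2) ≃ C := Equiv.ofBijective
      (fun u => (⟨enc u, (mem_C _).2 ⟨u, rfl⟩⟩ : C))
      ⟨fun u v h => enc_inj (congrArg Subtype.val h), fun c => by
        obtain ⟨u, hu⟩ := (mem_C c.1).1 c.2
        exact ⟨u, Subtype.ext hu⟩⟩
    rw [← Nat.card_congr e]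
    simp

end Pool.Agent.Results.MP_e1d516_co.OrderTwo
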